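import Pool.Agent.helper70.LE.SpecN

/-!
# Project LE (MP_baa4d7_al), row RCN: conjugation of subpairs inside `cz Q`
-/

set_option autoImplicit false

namespace Pool.Agent.LE

open Pool.Agent.helper58.DC Pool.Agent.DI Pool.Agent.GR Pool.Agent.OB Pool.Agent.DR Pool.Agent.FI Pool.Agent.FI3 Pool.Agent.FI4

private theorem RCN_cz {G : Type} [Group G] (Q P : Subgroup G) : cz (Q ⊔ P) = cz Q ⊓ cz P := by
  apply le_antisymm
  · exact le_inf (cz_mono le_sup_left) (cz_mono le_sup_right)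
  · intro x hx
    obtain ⟨h1, h2⟩ := Subgroup.mem_inf.1 hx
    have h3 : Q ⊔ P ≤ Subgroup.centralizer {x} := by
      refine sup_le (fun a ha => ?_) fun a ha => ?_
      · rw [Subgroup.mem_centralizer_iff]
        intro b hb
        rw [Set.mem_singleton_iff] at hb
        rw [hb]
        exact ((Subgroup.mem_centralizer_iff.1 h1) a ha).symm
      · rw [Subgroup.mem_centralizer_iff]
        intro b hb
        rw [Set.mem_singleton_iff] at hb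
        rw [hb]
        exact ((Subgroup.mem_centralizer_iff.1 h2) a ha).symm
    rw [Subgroup.mem_centralizer_iff]
    intro a ha
    exact ((Subgroup.mem_centralizer_iff.1 (h3 ha)) x rfl).symm

private theorem RCN_pg {G : Type} [Group G] (p : ℕ) (Q P : Subgroup G) (hQ : IsPGroup p Q) (hP : IsPGroup p P)
    (hPQ : P ≤ cz Q) : IsPGroup p (Q ⊔ P : Subgroup G) := by
  refine IsPGroup.to_sup_of_normal_right' hQ hP fun q hq => ?_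
  rw [Subgroup.mem_normalizer_iff]
  have h1 : ∀ x ∈ P, q * x * q⁻¹ = x := by
    intro x hx
    rw [(Subgroup.mem_centralizer_iff.1 (hPQ hx)) q hq, mul_inv_cancel_right]
  intro x
  constructor
  · intro hx
    rw [h1 x hx]
    exact hx
  · intro hx
    have h2 := h1 _ hx
    have h3 : q * x * q⁻¹ = x := by
      have h4 : q * (q * x * q⁻¹) * q⁻¹ = q * x * q⁻¹ := h2
      have h5 : q * x * q⁻¹ = q⁻¹ * (q * (q * x * q⁻¹) * q⁻¹) * q := by group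
      rw [h4] at h5
      rw [h5]
      group
    rwa [h3] at hx

theorem RCN (hFEQ : FEQ_stmt) (hFSI : FSI_stmt) (hTPR : Pool.Agent.FI.TPR_stmt) (hEXB : EXB_stmt) : RCN_stmt := by
  intro p M hS G _ _ D x θ χ lo Q hQD P hPp hPQ η hη hSB
  have f2 : ∀ (g h : G) (ψ : G → ℂ), cjF g (cjF h ψ) = cjF (g * h) ψ :=
    fun g h ψ => (hFEQ G M g h P P P θ ψ χ).1.2.1
  have f1 : ∀ (g h : G) (P : Subgroup G), cjS g (cjS h P) = cjS (g * h) P :=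
    fun g h P => (hFEQ G M g h P P P θ θ χ).1.1
  have f10 : ∀ (P : Subgroup G), cjS (1 : G) P = P :=
    fun P => (hFEQ G M 1 1 P P P θ θ χ).1.2.2.1
  have f11 : ∀ (ψ : G → ℂ), cjF (1 : G) ψ = ψ :=
    fun ψ => (hFEQ G M 1 1 P P P θ ψ χ).1.2.2.2
  have f3 : ∀ (g : G) (P : Subgroup G), cz (cjS g P) = cjS g (cz P) :=
    fun g P => (hFEQ G M g 1 P P P θ θ χ).2.1.1
  have f4 : ∀ (g : G) (P Q : Subgroup G), (cjS g P ≤ cjS g Q ↔ P ≤ Q) :=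
    fun g P Q => (hFEQ G M g 1 P Q P θ θ χ).2.1.2.2.1
  have f5 : ∀ (g : G) (P : Subgroup G), (cjS g P = P ↔ g ∈ nz P) :=
    fun g P => (hFEQ G M g 1 P P P θ θ χ).2.1.2.2.2.1
  have f6 : ∀ (g : G) (P : Subgroup G), Nat.card (cjS g P) = Nat.card P :=
    fun g P => (hFEQ G M g 1 P P P θ θ χ).2.1.2.2.2.2.2
  have f8 : ∀ (g : G) (L : Subgroup G) (ψ : G → ℂ), (ψ ∈ IrrOn L ↔ cjF g ψ ∈ IrrOn (cjS g L)) :=
    fun g L ψ => (hFEQ G M g 1 P P L θ ψ χ).2.2.2.1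
  have f9 : ∀ (g : G) (L : Subgroup G) (η ψ : G → ℂ),
      (SB M L η ψ ↔ SB M (cjS g L) (cjF g η) (cjF g ψ)) :=
    fun g L η ψ => (hFEQ G M g 1 P P L η ψ χ).2.2.2.2.1
  have hDp : IsPGroup p D := lo.rt.dfa.pgrp
  have hθ : θ ∈ IrrOn (cz D) := lo.rt.th
  have hCQ : cz D ≤ cz Q := cz_mono hQD
  have hDQ : D ≤ cz Q := (le_cz_of_com lo.rt.com).trans hCQ
  have hQp : IsPGroup p Q := hDp.to_le hQD
  obtain ⟨Q₁, hQ₁⟩ : ∃ Q₁ : Subgroup G, Q₁ = Q ⊔ P := ⟨_, rfl⟩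
  have hQ₁p : IsPGroup p Q₁ := by
    rw [hQ₁]
    exact RCN_pg p Q P hQp hPp hPQ
  have hQ₁c : cz Q₁ = cz Q ⊓ cz P := by
    rw [hQ₁]
    exact RCN_cz Q P
  have hηQ : η ∈ IrrOn (cz Q₁) := by rw [hQ₁c]; exact hη
  have hQQ₁ : Q ≤ Q₁ := hQ₁ ▸ le_sup_left
  have hPQ₁ : P ≤ Q₁ := hQ₁ ▸ le_sup_right
  have hKL : cz Q₁ ≤ cz Q := cz_mono hQQ₁
  have hind : Induces M η χ :=
    (((hFSI p M hS G (cz Q) (cz Q) η θ).2 (fun z hz => hηQ.1 z fun h => hz (hKL h))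
      (fun z hz => hθ.1 z fun h => hz (hCQ h)) hSB) χ).2 lo.rt.ind
  obtain ⟨g, hgD, hgS⟩ := lo.con Q₁ hQ₁p η hηQ hind
  obtain ⟨ψ, hψ, hψS⟩ := hEXB p M hS G (cz Q) D hDp hDQ θ (by rw [inf_eq_right.2 hCQ]; exact hθ)
  have hQD₁ : Q₁ ≤ cjS g⁻¹ D := by
    have h1 := (f4 g⁻¹ _ _).2 hgD
    rw [f1, inv_mul_cancel, f10] at h1
    exact h1
  have hθ₁ : cjF g⁻¹ θ ∈ IrrOn (cz (cjS g⁻¹ D)) := by
    rw [f3]
    exact (f8 _ _ _).1 hθ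
  have hs1 : SB M (cz Q₁) (cjF g⁻¹ θ) η := by
    have h1 := (f9 g⁻¹ _ _ _).1 hgS
    rw [f3, f1, f2, inv_mul_cancel, f10, f11] at h1
    exact h1
  have hs2 : SB M (cz Q) (cjF g⁻¹ θ) η :=
    (hFSI p M hS G (cz Q₁) (cz Q) (cjF g⁻¹ θ) η).1 hKL (fun z hz => hθ₁.1 z fun h => hz (cz_mono hQD₁ h))
      hηQ.1 hs1
  obtain ⟨l, hl, hlD, hlS⟩ := lo.cnj Q hQD ψ hψ hψS (cjS g⁻¹ D) (hDp.map _) (hQQ₁.trans hQD₁) (f6 _ _)
    (cjF g⁻¹ θ) hθ₁ (SB.trans hs2 (SB.trans hSB hψS))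
  have hPD : cjS l P ≤ D := by
    have h1 := (f4 l _ _).2 (hPQ₁.trans hQD₁)
    rwa [hlD] at h1
  refine ⟨l, hl, hPD, ?_⟩
  have hK : cjS l (cz Q₁) = cz Q ⊓ cz (cjS l P) := by
    have h1 : cjS l Q = Q := (f5 l Q).2 (cz_le_nz Q hl)
    have h2 : cjS l Q₁ = Q ⊔ cjS l P := by
      rw [hQ₁]
      change (Q ⊔ P).map _ = Q ⊔ cjS l P
      rw [Subgroup.map_sup]
      change cjS l Q ⊔ cjS l P = _
      rw [h1]
    rw [← f3, h2, RCN_cz]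
  have hs3 : SB M (cz Q ⊓ cz (cjS l P)) (cjF l (cjF g⁻¹ θ)) (cjF l η) := by
    rw [← hK]
    exact (f9 l _ _ _).1 hs1
  have hCK : cz D ≤ cz Q ⊓ cz (cjS l P) := le_inf hCQ (cz_mono hPD)
  have hθl : ∀ z, z ∉ cz D → cjF l (cjF g⁻¹ θ) z = 0 := by
    have h1 := (f8 l _ _).1 hθ₁
    rw [← f3, hlD] at h1
    exact h1.1
  have hs4 : SB M (cz Q ⊓ cz (cjS l P)) (cjF l (cjF g⁻¹ θ)) θ := TRNb hCK hθl hθ.1 hlS
  exact SB.trans (SB.symm hs4) hs3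

end Pool.Agent.LE
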